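import Mathlib
import Pool.Agent.H15.VQ.Thm2

/-!
# Landau's and Vinogradov-Korobov's theorems are best possible at every scale

Definitions: `gN`, `gpsi` in `Pool/Agent/H15/VQ/Defs.lean`; `IsZeta`, `Grows`, `Richert`, `V` in `Pool/Agent/H15/VQ/Zeta.lean`; `LogFree`,
`Region`, `Extremal` in `Pool/Agent/H15/VQ/FinA.lean`; `Counts`, `Lindelof` in `Pool/Agent/H15/VQ/Thm.lean`; `W` in
`Pool/Agent/H15/VQ/Thm2.lean`.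
-/

set_option autoImplicit false

open Complex Set Filter Topology

namespace Pool.Agent.Results.MP_5a4862_nt.LandauSharp

open VQ

theorem result :
    (∀ (p : ℕ → ℝ) (κ : ℝ) (Z : ℂ → ℂ), IsZeta p κ Z →
      (∀ ω : ℝ → ℝ, MonotoneOn ω (Ici 3) →
        Tendsto (fun t => ω t / (Real.log (Real.log t) * Real.log (Real.log (Real.log t)))) atTop atTop →
        Grows ω Z →
        ∃ T0 : ℝ, (∀ ρ : ℂ, Z ρ = 0 → T0 ≤ |ρ.im| → 1 ≤ 35 / 2 * (1 - ρ.re) * ω (5 * |ρ.im|)) ∧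
          ∀ T x : ℝ, T0 ≤ T → 0 < x → 100 * ω (4 * T) * Real.log T ≤ Real.log x →
            Real.log x ≤ T ^ (1 / 4 : ℝ) → |gpsi p x - x| ≤ x / T ^ (1 / 3 : ℝ)) ∧
      (∀ B : ℝ, 0 < B → Richert B Z →
        ∃ T0 : ℝ, (∀ ρ : ℂ, Z ρ = 0 → T0 ≤ |ρ.im| → B ^ (-(2 / 3) : ℝ) ≤ 50 * (1 - ρ.re) * V |ρ.im|) ∧
          ∀ x : ℝ, T0 ≤ x → |gpsi p x - x| ≤ x * Real.exp (-(1 / 50 * B ^ (-(2 / 5) : ℝ) * W x)))) ∧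
    (∀ ω : ℝ → ℝ, MonotoneOn ω (Ici 3) → Tendsto ω atTop atTop →
      Tendsto (fun t => ω t / Real.log t) atTop (𝓝 0) →
      ∃ (p : ℕ → ℝ) (Z : ℂ → ℂ), IsZeta p 1 Z ∧ Counts p ∧ Lindelof Z ∧ Grows ω Z ∧ LogFree ω Z ∧
        Region ω Z ∧ Extremal ω p Z ∧ ∀ σ : ℝ, σ < 1 → ∃ ρ : ℂ, Z ρ = 0 ∧ σ < ρ.re ∧ ρ.re < 1) ∧
    (∀ B : ℝ, 0 < B →
      ∃ (p : ℕ → ℝ) (Z : ℂ → ℂ), IsZeta p 1 Z ∧ Counts p ∧ Lindelof Z ∧ Richert B Z ∧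
        LogFree (fun t => 321 / 200 * B ^ (2 / 3 : ℝ) * V t) Z ∧
        (∀ ρ : ℂ, 1 / 2 < ρ.re → ρ ≠ 1 → Z ρ = 0 →
          3 ≤ |ρ.im| ∧ 99 / 100 * B ^ (-(2 / 3) : ℝ) / V |ρ.im| ≤ 1 - ρ.re) ∧
        (∀ X : ℝ, ∃ β γ : ℝ, X ≤ γ ∧ 1 / 2 < β ∧ β < 1 ∧ Z (β + γ * I) = 0 ∧
          1 - β ≤ B ^ (-(2 / 3) : ℝ) / V γ) ∧
        (∀ X c : ℝ, (c = 1 ∨ c = -1) → ∃ x : ℝ, X ≤ x ∧
          x * Real.exp (-(12 / 5 * B ^ (-(2 / 5) : ℝ) * W x)) ≤ c * (gpsi p x - x))) :=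
  final2

end Pool.Agent.Results.MP_5a4862_nt.LandauSharp
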