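import Mathlib
import Pool.Agent.H48.RZ.One

/-!
# Zeta and its zeros near the line `Re s = 1`

`VK t = (log t)^(2/3) (loglog t)^(1/3)` (`Pool/Agent/H48/RZ/Scale.lean`).
-/

set_option autoImplicit false

open Complex

namespace Pool.Agent.Results.MP_5a4862_nt.OneLine

open Pool.Agent.H48.RZ

theorem result : ∃ c : ℝ, 0 < c ∧
    (∀ (ρ : ℂ) (Y : ℝ), riemannZeta ρ = 0 → 0 < ρ.re → 3 ≤ |ρ.im| →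
      Y = Real.log |ρ.im| ^ (2 / 3 : ℝ) →
      c ≤ (1 - ρ.re) * (Y * (1 + max 0 (Real.log (Y / ‖riemannZeta (1 + 1 / Y + ρ.im * I)‖))) ^
        (1 / 3 : ℝ))) ∧
    (∀ ε : ℝ, 0 < ε → ∃ t0 : ℝ, ∀ t σ : ℝ, t0 ≤ t → 1 - c / VK t ≤ σ →
      1 ≤ Real.log t ^ (2 / 3 : ℝ) * Real.log (Real.log t) ^ (2 / (3 * Real.pi) + ε) *
        ‖riemannZeta (σ + t * I)‖) ∧
    (∀ ε : ℝ, 0 < ε → ∃ t0 : ℝ, ∀ t Y σ : ℝ, t0 ≤ t → Y = Real.log t ^ (2 / 3 : ℝ) →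
      1 - c / VK t ≤ σ → σ ≤ 1 + 1 / Y →
      ‖riemannZeta (1 + 1 / Y + t * I)‖ ≤ Real.log (Real.log t) ^ (2 / (3 * Real.pi) + ε) *
        (2 + Y * ‖riemannZeta (1 + 1 / Y + t * I)‖) ^ ε * ‖riemannZeta (σ + t * I)‖) ∧
    (∀ ε : ℝ, 0 < ε → ∃ C : ℝ, ∀ t Y σ : ℝ, 3 ≤ |t| → Y = Real.log |t| ^ (2 / 3 : ℝ) →
      1 ≤ σ → σ ≤ 1 + 1 / Y →
      |Real.log ‖riemannZeta (σ + t * I)‖ - Real.log ‖riemannZeta (1 + 1 / Y + t * I)‖| ≤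
        ε * max 0 (Real.log (Y / ‖riemannZeta (1 + 1 / Y + t * I)‖)) + C) ∧
    (∀ (K : ℝ) (k : ℕ), 1 ≤ k → ∃ c' : ℝ, 0 < c' ∧ ∀ t Y γ : ℝ, 3 ≤ |t| →
      Y = Real.log |t| ^ (2 / 3 : ℝ) → Y * ‖riemannZeta (1 + 1 / Y + t * I)‖ ≤ K →
      |γ - 2 * k * t| ≤ 1 / Y →
      c' * Y ≤ ‖riemannZeta (1 + γ * I)‖ ∧
        ∀ β : ℝ, 0 < β → riemannZeta (β + γ * I) = 0 → c' ≤ (1 - β) * Y) :=
  Pool.Agent.H48.RZ.resultOne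

end Pool.Agent.Results.MP_5a4862_nt.OneLine
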