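import Mathlib
import Pool.Agent.H48.VP.Main

/-!
# Zeros of the zeta function near `Re s = 1` and short sums over primes

The definitions `P`, `ZeroFree`, `Saving`, `SavingOne`, `SavingInt`, `SavingMean`, `SeenMean`, `Seen`,
`Scale`, `PrimeSaving`, `Region`, `Regular` are in `Pool/Agent/H48/VP/Defs.lean`.
-/

set_option autoImplicit false

open Complex

namespace Pool.Agent.Results.MP_5a4862_nt.PrimeScale

open Pool.Agent.H48.VP

theorem result :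
    (∀ x : ℝ, 0 < x → (ZeroFree ↔ Saving x) ∧ (ZeroFree ↔ SavingOne x) ∧
      (ZeroFree ↔ SavingInt x) ∧ (ZeroFree ↔ SavingMean x)) ∧
    (∀ ε : ℝ, 0 < ε → ε ≤ 1 / 4 → ∃ C : ℝ, 1 ≤ C ∧
      (∀ (ρ : ℂ) (N : ℝ), riemannZeta ρ = 0 → 1 / 2 + ε ≤ ρ.re → C ≤ ρ.im → 1 ≤ N →
        C * (√(1 - ρ.re) * Real.log ρ.im) ≤ Real.log N →
        (C * (Real.log ρ.im ^ 2 * Real.log (Real.log ρ.im)) ≤ Real.log N ^ 3 →
          SeenMean ε C N ρ ∧ Seen ε C N ρ) ∧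
        (C * Real.log (Real.log (ρ.im + N)) ≤ (1 - ρ.re) * Real.log N → Seen ε 0 N ρ)) ∧
      (∀ (θ t U : ℝ) (M : ℕ), 1 / 2 ≤ θ → θ < 1 → 8 ≤ U → U ≤ t / 2 → 1 ≤ M →
        (∀ s : ℂ, riemannZeta s = 0 → θ < s.re → U < |s.im - t|) →
        ‖P M t‖ ≤ C / (1 - θ) * Real.log (t * M) ^ 3 *
          ((M : ℝ) ^ (θ + ε * (1 - θ)) + M / U ^ (1 - ε))) ∧
      (∀ (η X : ℝ → ℝ) (t0 : ℝ), C ≤ t0 → Scale C t0 η X →
        (PrimeSaving ε 1 t0 η X → Region (1 - ε) t0 η) ∧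
        ((∀ t : ℝ, t0 ≤ t → X t ^ (η t) ≤ t) → Regular ε t0 η → Region 1 t0 η →
          PrimeSaving ε (1 - 3 * ε) (2 * t0) η X)) ∧
      (∀ (η : ℝ → ℝ) (t0 : ℝ), C ≤ t0 →
        (∀ t : ℝ, t0 ≤ t → 0 ≤ η t ∧ η t ≤ 1 / C ∧
          Real.log (Real.log t) ≤ η t * √(η t) * Real.log t) →
        (PrimeSaving ε 1 t0 η (fun t => Real.exp (√(C * η t) * Real.log t)) →
          Region (1 - ε) t0 η) ∧
        (Regular ε t0 η → Region 1 t0 η →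
          PrimeSaving ε (1 - 3 * ε) (2 * t0) η
            (fun t => Real.exp (√(C * η t) * Real.log t))))) :=
  Pool.Agent.H48.VP.main

end Pool.Agent.Results.MP_5a4862_nt.PrimeScale
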